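import Pool.Agent.Helper61_LT.Stmts

/-!
# LT module FLT: the finite theorem (paper: /team-store/PAPER_LT61.md, FLT)
-/

set_option autoImplicit false

namespace Pool.Agent.LT

open Matrix MeasureTheory

namespace Flt

variable {ι : Type} [Fintype ι] [DecidableEq ι]

theorem roots_eq {A : Matrix ι ι ℝ} (hA : A.IsHermitian) :
    A.charpoly.roots = Multiset.map hA.eigenvalues Finset.univ.val := by
  have h := hA.roots_charpoly_eq_eigenvalues
  simpa [Function.comp_def] using h

theorem roots_nonneg {A : Matrix ι ι ℝ} (hA : A.PosSemidef) :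
    ∀ x ∈ A.charpoly.roots, 0 ≤ x := by
  intro x hx
  rw [roots_eq hA.1] at hx
  rw [Multiset.mem_map] at hx
  obtain ⟨i, -, rfl⟩ := hx
  exact hA.eigenvalues_nonneg i

/-- Number of zero eigenvalues. -/
theorem card_zero {A : Matrix ι ι ℝ} (hA : A.IsHermitian) :
    (A.charpoly.roots.filter fun x => x = 0).card + A.rank = Fintype.card ι := by
  rw [roots_eq hA, hA.rank_eq_card_non_zero_eigs, Multiset.filter_map, Multiset.card_map]
  have h1 : (Multiset.filter ((fun x => x = 0) ∘ hA.eigenvalues) Finset.univ.val).card =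
      (Finset.univ.filter fun i => hA.eigenvalues i = 0).card := rfl
  rw [h1, Fintype.card_subtype]
  rw [Finset.card_filter_add_card_filter_not (fun i => hA.eigenvalues i = 0)]
  simp

/-- If the determinant is not zero all eigenvalues are not zero. -/
theorem roots_ne {A : Matrix ι ι ℝ} (hA : A.det ≠ 0) : ∀ x ∈ A.charpoly.roots, x ≠ 0 := by
  intro x hx h0
  subst h0
  rw [Polynomial.mem_roots (A.charpoly_monic.ne_zero), Polynomial.IsRoot.def,
    Matrix.eval_charpoly] at hx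
  simp at hx
  apply hA
  have := Matrix.det_neg A
  rw [hx] at this
  rcases mul_eq_zero.mp this.symm with h | h
  · exact absurd h (pow_ne_zero _ (by norm_num))
  · exact h

theorem cst_mul {α β γ : Type} [Fintype β] (A : Matrix α β ℤ) (B : Matrix β γ ℤ) :
    cst (A * B) = cst A * cst B := by
  ext i j
  simp [cst, Matrix.mul_apply]

theorem cst_add {α β : Type} (A B : Matrix α β ℤ) : cst (A + B) = cst A + cst B := by
  ext i j
  simp [cst]

theorem cst_tr {α β : Type} (A : Matrix α β ℤ) : cst Aᵀ = (cst A)ᵀ := by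
  ext i j
  simp [cst]

theorem psd_tm {α β : Type} [Fintype α] [Fintype β] (A : Matrix α β ℝ) :
    (Aᵀ * A).PosSemidef := by
  have h := Matrix.posSemidef_conjTranspose_mul_self A
  rwa [Matrix.conjTranspose_eq_transpose_of_trivial] at h

theorem psd_mt {α β : Type} [Fintype α] [Fintype β] (A : Matrix α β ℝ) :
    (A * Aᵀ).PosSemidef := by
  have h := Matrix.posSemidef_self_mul_conjTranspose A
  rwa [Matrix.conjTranspose_eq_transpose_of_trivial] at h

theorem tr_tm {α β : Type} [Fintype α] [Fintype β] (A : Matrix α β ℤ) :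
    ((cst A)ᵀ * cst A).trace = HS A := by
  unfold HS
  rw [Finset.sum_comm]
  simp [Matrix.trace, Matrix.mul_apply, cst, sq]

theorem tr_mt {α β : Type} [Fintype α] [Fintype β] (A : Matrix α β ℤ) :
    (cst A * (cst A)ᵀ).trace = HS A := by
  simp [Matrix.trace, Matrix.mul_apply, cst, sq, HS]

theorem hs_le {α β : Type} [Fintype α] [Fintype β] (A : Matrix α β ℤ) (K : ℝ)
    (h : Bd (cst A) K) : HS A ≤ K ^ 2 * Fintype.card β := by
  classical
  unfold HS
  rw [Finset.sum_comm]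
  have h1 : ∀ j : β, ∑ i, (A i j : ℝ) ^ 2 ≤ K ^ 2 := by
    intro j
    have := h (Pi.single j 1)
    simp [dotProduct, cst, Pi.single_apply] at this
    simpa [sq] using this
  calc ∑ j, ∑ i, (A i j : ℝ) ^ 2 ≤ ∑ _j : β, K ^ 2 := Finset.sum_le_sum fun j _ => h1 j
    _ = K ^ 2 * Fintype.card β := by simp [mul_comm]

theorem hs_nonneg {α β : Type} [Fintype α] [Fintype β] (A : Matrix α β ℤ) : 0 ≤ HS A := by
  unfold HS
  positivity

theorem hs_sub {α β k : Type} [Fintype α] [Fintype β] [Fintype k] (A : Matrix α β ℤ)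
    (J : k → α) (I : k → β) (hJ : Function.Injective J) (hI : Function.Injective I) :
    HS (A.submatrix J I) ≤ HS A := by
  classical
  unfold HS
  have h1 : ∀ a : α, ∑ j, (A a (I j) : ℝ) ^ 2 ≤ ∑ b, (A a b : ℝ) ^ 2 := by
    intro a
    have : ∑ j, (A a (I j) : ℝ) ^ 2 = ∑ b ∈ Finset.univ.image I, (A a b : ℝ) ^ 2 := by
      rw [Finset.sum_image (fun x _ y _ h => hI h)]
    rw [this]
    exact Finset.sum_le_sum_of_subset_of_nonneg (Finset.subset_univ _) (fun _ _ _ => sq_nonneg _)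
  calc ∑ i, ∑ j, ((A.submatrix J I) i j : ℝ) ^ 2 = ∑ i, ∑ j, (A (J i) (I j) : ℝ) ^ 2 := rfl
    _ ≤ ∑ i, ∑ b, (A (J i) b : ℝ) ^ 2 := Finset.sum_le_sum fun i _ => h1 (J i)
    _ = ∑ a ∈ Finset.univ.image J, ∑ b, (A a b : ℝ) ^ 2 := by
        rw [Finset.sum_image (fun x _ y _ h => hJ h)]
    _ ≤ ∑ a, ∑ b, (A a b : ℝ) ^ 2 :=
        Finset.sum_le_sum_of_subset_of_nonneg (Finset.subset_univ _)
          (fun _ _ _ => Finset.sum_nonneg fun _ _ => sq_nonneg _)

theorem hs_mono {α β : Type} [Fintype α] [Fintype β] (A B : Matrix α β ℤ)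
    (h : ∀ a b, A a b = B a b ∨ A a b = 0) : HS A ≤ HS B := by
  unfold HS
  refine Finset.sum_le_sum fun a _ => Finset.sum_le_sum fun b _ => ?_
  rcases h a b with h | h
  · rw [h]
  · rw [h]
    simp [sq_nonneg]

/-- The logarithmic sum. -/
noncomputable def lgs (S : Multiset ℝ) : ℝ :=
  ((S.filter fun x => x < 1).map fun x => Real.log (1 / x)).sum

theorem lgs_add (S T : Multiset ℝ) : lgs (S + T) = lgs S + lgs T := by
  simp [lgs, Multiset.filter_add]

theorem lgs_pos (hCNT : CntStmt) (A : Matrix ι ι ℤ) (hA : (cst A).PosSemidef) :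
    lgs ((cst A).charpoly.roots.filter fun x => 0 < x) ≤ (cst A).trace := by
  refine le_trans (le_of_eq ?_) (hCNT ι A hA)
  unfold lgs
  rw [Multiset.filter_filter]
  congr 2
  apply Multiset.filter_congr
  intro x _
  constructor <;> intro h <;> exact ⟨h.2, h.1⟩

/-- The number of small eigenvalues. -/
theorem zc_le {A : Matrix ι ι ℝ} (hA : A.PosSemidef) (δ : ℝ) (r : ℕ)
    (h : Fintype.card ι ≤ A.rank + r) :
    zc A δ ≤ r + ((A.charpoly.roots.filter fun x => 0 < x).filter fun x => x < δ).card := by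
  unfold zc
  have h1 := card_zero hA.1
  have h2 : A.charpoly.roots.filter (fun x => x < δ) ≤
      A.charpoly.roots.filter (fun x => x = 0) +
        (A.charpoly.roots.filter fun x => 0 < x).filter fun x => x < δ := by
    rw [Multiset.filter_filter]
    have h3 : A.charpoly.roots.filter (fun x => x < δ) ≤
        A.charpoly.roots.filter (fun x => x = 0 ∨ (x < δ ∧ 0 < x)) := by
      rw [Multiset.le_iff_count]
      intro a
      simp only [Multiset.count_filter]
      by_cases ha : a ∈ A.charpoly.roots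
      · have := roots_nonneg hA a ha
        split_ifs with h4 h5 h5
        · exact le_rfl
        · exfalso
          apply h5
          rcases this.lt_or_eq with h6 | h6
          · exact Or.inr ⟨h4, h6⟩
          · exact Or.inl h6.symm
        · exact Nat.zero_le _
        · exact le_rfl
      · rw [Multiset.count_eq_zero_of_notMem ha]
        simp
    refine h3.trans (le_of_eq ?_)
    have h4 := Multiset.filter_add_filter (fun x : ℝ => x = 0) (fun x => x < δ ∧ 0 < x)
      A.charpoly.roots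
    rw [h4]
    have h5 : A.charpoly.roots.filter (fun a => a = 0 ∧ a < δ ∧ 0 < a) = 0 := by
      rw [Multiset.filter_eq_nil]
      rintro a - ⟨h6, -, h7⟩
      exact absurd h6 h7.ne'
    rw [h5, add_zero]
  have h6 := Multiset.card_le_card h2
  rw [Multiset.card_add] at h6
  omega

theorem zc_le' {A : Matrix ι ι ℝ} (hA : A.PosSemidef) (hd : A.det ≠ 0) (δ : ℝ) :
    zc A δ ≤ ((A.charpoly.roots.filter fun x => 0 < x).filter fun x => x < δ).card := by
  have h := zc_le hA δ 0 (by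
    rw [Matrix.rank_of_isUnit A ((Matrix.isUnit_iff_isUnit_det A).mpr (isUnit_iff_ne_zero.mpr hd))]
    simp)
  simpa using h

theorem det_cst {k : Type} [Fintype k] [DecidableEq k] (A : Matrix k k ℤ) (h : A.det ≠ 0) :
    (cst A).det ≠ 0 := by
  have h1 : (cst A).det = (A.det : ℝ) := by
    have := (Int.castRingHom ℝ).map_det A
    simpa [cst, RingHom.mapMatrix_apply] using this.symm
  rw [h1]
  exact_mod_cast h

/-- The real inequality at the end. -/
theorem fin_ineq (c r a1 a2 a3 b1 b2 b3 L N ε ε' Mx r0 : ℝ) (hc : 0 ≤ c)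
    (h1 : a1 ≤ r + b1) (h2 : a2 ≤ b2) (h3 : a3 ≤ b3) (hL : 0 ≤ L) (hLM : L ≤ Mx)
    (hb : (b1 + b2 + b3) * L ≤ ε' * N) (hr0 : r ≤ r0 * N) (hN : 0 ≤ N)
    (hM : c * (2 * r0) * Mx ≤ ε / 2) (hε : c * ε' ≤ ε / 2) (hr00 : 0 ≤ r0) :
    c * (r + a1 + a2 + a3) * L ≤ ε * N := by
  have e1 : c * (r + a1 + a2 + a3) * L ≤ c * (2 * r + (b1 + b2 + b3)) * L := by
    apply mul_le_mul_of_nonneg_right _ hL
    apply mul_le_mul_of_nonneg_left _ hc
    linarith
  have e2 : c * (2 * r + (b1 + b2 + b3)) * L = c * (2 * r) * L + c * ((b1 + b2 + b3) * L) := by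
    ring
  have e3 : c * (2 * r) * L ≤ c * (2 * (r0 * N)) * Mx := by
    have : c * (2 * r) * L ≤ c * (2 * (r0 * N)) * L := by
      apply mul_le_mul_of_nonneg_right _ hL
      apply mul_le_mul_of_nonneg_left _ hc
      linarith
    refine this.trans ?_
    apply mul_le_mul_of_nonneg_left hLM
    positivity
  have e4 : c * (2 * (r0 * N)) * Mx = c * (2 * r0) * Mx * N := by ring
  have e5 : c * (2 * r0) * Mx * N ≤ ε / 2 * N := mul_le_mul_of_nonneg_right hM hN
  have e6 : c * ((b1 + b2 + b3) * L) ≤ c * (ε' * N) := mul_le_mul_of_nonneg_left hb hc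
  have e7 : c * (ε' * N) ≤ ε / 2 * N := by
    rw [← mul_assoc]
    exact mul_le_mul_of_nonneg_right hε hN
  linarith

end Flt

open Flt in
/-- FLT. -/
theorem flt (hTWO : TwoStmt) (hCUR : CurStmt) (hCNT : CntStmt) (hSCL : SclStmt) : FltStmt := by
  intro n K ε δ1 hK hε hδ1 hδ1'
  obtain ⟨c, hc⟩ := hTWO n
  have hKp : 0 < K := by linarith
  have hB : 0 < 4 * K ^ 3 := by positivity
  have hε' : 0 < ε / (2 * (c + 1)) := by positivity
  obtain ⟨s, hs, hs2⟩ := hSCL (4 * K ^ 3) (ε / (2 * (c + 1))) δ1 (K + 2) hB hε' hδ1 hδ1'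
    (by linarith)
  set Mx : ℝ := ∑ δ ∈ s, (Real.log (K + 2) + Real.log (1 / δ)) with hMx
  have hterm : ∀ δ ∈ s, 0 ≤ Real.log (K + 2) + Real.log (1 / δ) := by
    intro δ hδ
    have h1 := hs δ hδ
    have h2 : 0 ≤ Real.log (K + 2) := Real.log_nonneg (by linarith)
    have h3 : 0 ≤ Real.log (1 / δ) := Real.log_nonneg (by
      rw [le_div_iff₀ h1.1]
      linarith)
    linarith
  have hMx0 : 0 ≤ Mx := Finset.sum_nonneg hterm
  have hle : ∀ δ ∈ s, Real.log (K + 2) + Real.log (1 / δ) ≤ Mx := fun δ hδ =>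
    Finset.single_le_sum hterm hδ
  refine ⟨s, ε / (4 * (c + 1) * (Mx + 1)), hs, by positivity, ?_⟩
  intro C D _ _ _ _ N r dc dd d e f h θ hr hC hD hdat hrk hEO
  classical
  set e0 : Matrix D D ℤ := fun a b => if dd b % 2 = 0 then e a b else 0 with he0
  set e1 : Matrix D D ℤ := e - e0 with he1
  obtain ⟨k0, J0, I0, hJ0, hI0, hdet0, hcur0⟩ := hCUR D D e0
  obtain ⟨k1, J1, I1, hJ1, hI1, hdet1, hcur1⟩ := hCUR D D e1
  set m0 : Matrix (Fin k0) (Fin k0) ℤ := e0.submatrix J0 I0 with hm0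
  set m1 : Matrix (Fin k1) (Fin k1) ℤ := e1.submatrix J1 I1 with hm1
  set A : Matrix C C ℤ := d * dᵀ + dᵀ * d with hA
  have hAc : cst A = Lp (cst d) := by
    rw [hA, cst_add, cst_mul, cst_mul, cst_tr]
    rfl
  have hLpsd : (Lp (cst d)).PosSemidef := (psd_mt _).add (psd_tm _)
  have h0psd := psd_tm (cst m0)
  have h1psd := psd_tm (cst m1)
  have h0c : cst (m0ᵀ * m0) = (cst m0)ᵀ * cst m0 := by rw [cst_mul, cst_tr]
  have h1c : cst (m1ᵀ * m1) = (cst m1)ᵀ * cst m1 := by rw [cst_mul, cst_tr]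
  have h0det : ((cst m0)ᵀ * cst m0).det ≠ 0 := by
    rw [Matrix.det_mul, Matrix.det_transpose]
    exact mul_ne_zero (det_cst m0 hdet0) (det_cst m0 hdet0)
  have h1det : ((cst m1)ᵀ * cst m1).det ≠ 0 := by
    rw [Matrix.det_mul, Matrix.det_transpose]
    exact mul_ne_zero (det_cst m1 hdet1) (det_cst m1 hdet1)
  set Λ0 := (Lp (cst d)).charpoly.roots.filter fun x => 0 < x with hΛ0
  set Λ1 := ((cst m0)ᵀ * cst m0).charpoly.roots.filter fun x => 0 < x with hΛ1
  set Λ2 := ((cst m1)ᵀ * cst m1).charpoly.roots.filter fun x => 0 < x with hΛ2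
  have l0 : lgs Λ0 ≤ 2 * HS d := by
    have h1 := lgs_pos hCNT A (by rw [hAc]; exact hLpsd)
    rw [hAc] at h1
    refine h1.trans (le_of_eq ?_)
    unfold Lp
    rw [Matrix.trace_add, tr_mt, tr_tm]
    ring
  have l1 : lgs Λ1 ≤ HS m0 := by
    have h1 := lgs_pos hCNT (m0ᵀ * m0) (by rw [h0c]; exact h0psd)
    rw [h0c, tr_tm] at h1
    exact h1
  have l2 : lgs Λ2 ≤ HS m1 := by
    have h1 := lgs_pos hCNT (m1ᵀ * m1) (by rw [h1c]; exact h1psd)
    rw [h1c, tr_tm] at h1
    exact h1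
  have q0 : HS m0 ≤ HS e := (hs_sub e0 J0 I0 hJ0 hI0).trans (hs_mono e0 e (by
    intro a b
    have h1 : e0 a b = if dd b % 2 = 0 then e a b else 0 := rfl
    rw [h1]
    split_ifs
    · exact Or.inl rfl
    · exact Or.inr rfl))
  have q1 : HS m1 ≤ HS e := (hs_sub e1 J1 I1 hJ1 hI1).trans (hs_mono e1 e (by
    intro a b
    have h1 : e1 a b = e a b - (if dd b % 2 = 0 then e a b else 0) := rfl
    rw [h1]
    split_ifs
    · exact Or.inr (by ring)
    · exact Or.inl (by ring)))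
  have q2 : HS e ≤ K ^ 2 * Fintype.card D := hs_le e K hdat.be
  have q3 : HS d ≤ K ^ 2 * Fintype.card C := hs_le d K hdat.bd
  have q4 : K ^ 2 * (Fintype.card D : ℝ) ≤ K ^ 3 * N := by
    calc K ^ 2 * (Fintype.card D : ℝ) ≤ K ^ 2 * (K * N) :=
          mul_le_mul_of_nonneg_left hD (by positivity)
      _ = K ^ 3 * N := by ring
  have q5 : K ^ 2 * (Fintype.card C : ℝ) ≤ K ^ 3 * N := by
    calc K ^ 2 * (Fintype.card C : ℝ) ≤ K ^ 2 * (K * N) :=
          mul_le_mul_of_nonneg_left hC (by positivity)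
      _ = K ^ 3 * N := by ring
  obtain ⟨δ, hδ, hδ2⟩ := hs2 (Λ0 + Λ1 + Λ2) N (by
    intro x hx
    rw [Multiset.mem_add, Multiset.mem_add] at hx
    rcases hx with (hx | hx) | hx
    · exact (Multiset.mem_filter.mp hx).2
    · exact (Multiset.mem_filter.mp hx).2
    · exact (Multiset.mem_filter.mp hx).2) (by
    have : ((Multiset.filter (fun x => x < 1) (Λ0 + Λ1 + Λ2)).map
        fun x => Real.log (1 / x)).sum = lgs Λ0 + lgs Λ1 + lgs Λ2 := by
      rw [← lgs_add, ← lgs_add]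
      rfl
    rw [this]
    linarith)
  refine ⟨δ, hδ, ?_⟩
  have hδ3 := hs δ hδ
  have key := hc C D K δ r dc dd d e e0 e1 f h θ k0 k1 J0 I0 J1 I1 hK hδ3.1
    (lt_of_le_of_lt hδ3.2 hδ1') hdat hEO (fun a b => rfl) rfl hJ0 hI0 hJ1 hI1 hdet0 hdet1
    hcur0 hcur1
  refine key.trans ?_
  have z0 : (zc (Lp (cst d)) δ : ℝ) ≤ r + ((Λ0.filter fun x => x < δ).card : ℝ) := by
    exact_mod_cast zc_le hLpsd δ r hrk
  have z1 : (zc ((cst m0)ᵀ * cst m0) δ : ℝ) ≤ ((Λ1.filter fun x => x < δ).card : ℝ) := by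
    exact_mod_cast zc_le' h0psd h0det δ
  have z2 : (zc ((cst m1)ᵀ * cst m1) δ : ℝ) ≤ ((Λ2.filter fun x => x < δ).card : ℝ) := by
    exact_mod_cast zc_le' h1psd h1det δ
  have hsum : ((Λ0.filter fun x => x < δ).card : ℝ) + ((Λ1.filter fun x => x < δ).card : ℝ) +
      ((Λ2.filter fun x => x < δ).card : ℝ) =
      (((Λ0 + Λ1 + Λ2).filter fun x => x < δ).card : ℝ) := by
    rw [Multiset.filter_add, Multiset.filter_add, Multiset.card_add, Multiset.card_add]
    push_cast
    ring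
  have hfin := fin_ineq c r (zc (Lp (cst d)) δ) (zc ((cst m0)ᵀ * cst m0) δ)
    (zc ((cst m1)ᵀ * cst m1) δ) ((Λ0.filter fun x => x < δ).card)
    ((Λ1.filter fun x => x < δ).card) ((Λ2.filter fun x => x < δ).card)
    (Real.log (K + 2) + Real.log (1 / δ)) N ε (ε / (2 * (c + 1))) Mx
    (ε / (4 * (c + 1) * (Mx + 1))) (by positivity) z0 z1 z2 (hterm δ hδ)
    (hle δ hδ) (by rw [hsum]; exact hδ2) hr (by positivity) (by
      have e1 : (c : ℝ) * (2 * (ε / (4 * (c + 1) * (Mx + 1)))) * Mx =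
        ε / 2 * ((c / (c + 1)) * (Mx / (Mx + 1))) := by
        field_simp
        ring
      rw [e1]
      have e2 : (c : ℝ) / (c + 1) ≤ 1 := by
        rw [div_le_one (by positivity)]
        linarith
      have e3 : Mx / (Mx + 1) ≤ 1 := by
        rw [div_le_one (by positivity)]
        linarith
      have e4 : (c : ℝ) / (c + 1) * (Mx / (Mx + 1)) ≤ 1 :=
        mul_le_one₀ e2 (by positivity) e3
      nlinarith) (by
      have e1 : (c : ℝ) * (ε / (2 * (c + 1))) = ε / 2 * (c / (c + 1)) := by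
        field_simp
      rw [e1]
      have e2 : (c : ℝ) / (c + 1) ≤ 1 := by
        rw [div_le_one (by positivity)]
        linarith
      nlinarith) (by positivity)
  linarith

end Pool.Agent.LT
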