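import Pool.Agent.Helper62_LT.TopA

/-!
# LT module TOP: the main theorem
-/

set_option autoImplicit false
set_option linter.unusedSectionVars false

namespace Pool.Agent.LT

open Matrix MeasureTheory Filter Topology

namespace TopX

section aux

variable {G : Type} [Group G] {V : Type}

theorem gd_anti (a : V → G → V) {R R' : Finset G} (h : R ⊆ R') : Gd a R' ⊆ Gd a R := by
  intro v hv
  exact ⟨hv.1, fun g hg k hk => hv.2.1 g (h hg) k (h hk), fun g hg k hk => hv.2.2 g (h hg) k (h hk)⟩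

theorem nb_mono [Fintype V] (a : V → G → V) {R R' : Finset G} (h : R ⊆ R') :
    nb a R ≤ nb a R' := by
  unfold nb
  exact Set.ncard_le_ncard (Set.compl_subset_compl.mpr (gd_anti a h)) (Set.toFinite _)

theorem im_finite [Fintype V] (a : V → G → V) (S : Finset G) (c : V → V) (n : ℕ) :
    (Im a S c n).Finite := by
  refine (List.finite_length_le V (n + 1)).subset ?_
  intro l hl
  exact hl.2.1

theorem card_prod_sub [Fintype V] {X : Type} [Fintype X] (P : X → Prop) [DecidablePred P]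
    [Fintype {v : V × X // P v.2}] :
    Fintype.card {v : V × X // P v.2} = Fintype.card V * Fintype.card {x // P x} := by
  rw [← Fintype.card_prod]
  exact Fintype.card_congr
    { toFun := fun v => (v.1.1, ⟨v.1.2, v.2⟩)
      invFun := fun v => ⟨(v.1, v.2.1), v.2.2⟩
      left_inv := fun _ => rfl
      right_inv := fun _ => rfl }

/-- Two multiples of `m` which differ by less than `m` are equal. -/
theorem mul_eq_of_close (m a b r : ℕ) (hr : r < m) (h1 : m * a ≤ m * b + r)
    (h2 : m * b ≤ m * a + r) : m * a = m * b := by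
  have h3 : ∀ x y : ℕ, m * x ≤ m * y + r → x ≤ y := by
    intro x y h
    by_contra hxy
    push Not at hxy
    have : m * (y + 1) ≤ m * x := Nat.mul_le_mul_left m hxy
    have h4 : m * (y + 1) = m * y + m := by ring
    omega
  rw [le_antisymm (h3 a b h1) (h3 b a h2)]

end aux

/-- Monotonicity of `Dat`. -/
theorem dat_mono {C D : Type} [Fintype C] [Fintype D] [DecidableEq C] [DecidableEq D] {n : ℕ}
    {K K' : ℝ} {r r' : ℕ} {dc : C → ℕ} {dd : D → ℕ} {d : Matrix C C ℤ} {e : Matrix D D ℤ}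
    {f : Matrix D C ℤ} {h : Matrix C D ℤ} {θ : Matrix C C ℤ} (H : Dat n K r dc dd d e f h θ)
    (hK : 0 ≤ K) (hKK : K ≤ K') (hr : r ≤ r') : Dat n K' r' dc dd d e f h θ where
  le := H.le
  gd := H.gd
  ge := H.ge
  gf := H.gf
  gh := H.gh
  gt := H.gt
  dd0 := H.dd0
  ee0 := H.ee0
  bd := H.bd.mono hK hKK
  be := H.be.mono hK hKK
  bf := H.bf.mono hK hKK
  bh := H.bh.mono hK hKK
  bt := H.bt.mono hK hKK
  fd := H.fd.trans hr
  hd := H.hd.trans hr
  ho := H.ho.trans hr

/-- The final estimate. -/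
theorem final_ineq (n : ℕ) (ε : ℝ) (m : ℝ) (hm : 0 < m) (L I J : ℕ → ℝ) (t : ℝ)
    (hε : 0 ≤ ε)
    (ht : t = -(1 / 2) * ∑ p ∈ Finset.range (n + 1), (-1) ^ p * (p : ℝ) * J p)
    (h1 : |t| ≤ 2 * ε * m) (h2 : ∀ p ∈ Finset.range (n + 1), |J p - m * I p| ≤ ε * m)
    (h3 : ∀ p ∈ Finset.range (n + 1), |I p - L p| ≤ ε) :
    |∑ p ∈ Finset.range (n + 1), (-1) ^ p * (p : ℝ) * L p| ≤ (4 + 2 * (n + 1) ^ 2) * ε := by
  have hw : ∀ p ∈ Finset.range (n + 1), |((-1) ^ p * (p : ℝ))| ≤ n := by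
    intro p hp
    rw [abs_mul, abs_pow, abs_neg, abs_one, one_pow, one_mul, abs_of_nonneg (by positivity)]
    have := Finset.mem_range.mp hp
    exact_mod_cast Nat.lt_succ_iff.mp this
  have hsum : ∀ (A B : ℕ → ℝ) (c : ℝ), 0 ≤ c → (∀ p ∈ Finset.range (n + 1), |A p - B p| ≤ c) →
      |∑ p ∈ Finset.range (n + 1), (-1) ^ p * (p : ℝ) * A p -
        ∑ p ∈ Finset.range (n + 1), (-1) ^ p * (p : ℝ) * B p| ≤ (n + 1) ^ 2 * c := by
    intro A B c hc hAB
    rw [← Finset.sum_sub_distrib]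
    refine (Finset.abs_sum_le_sum_abs _ _).trans ?_
    have : ∀ p ∈ Finset.range (n + 1),
        |(-1) ^ p * (p : ℝ) * A p - (-1) ^ p * (p : ℝ) * B p| ≤ (n + 1) * c := by
      intro p hp
      rw [← mul_sub, abs_mul]
      have e1 := hw p hp
      have e2 := hAB p hp
      calc _ ≤ (n : ℝ) * c := mul_le_mul e1 e2 (abs_nonneg _) (by positivity)
        _ ≤ _ := by nlinarith
    refine (Finset.sum_le_sum this).trans (le_of_eq ?_)
    rw [Finset.sum_const, Finset.card_range, nsmul_eq_mul]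
    push_cast
    ring
  have e1 := hsum J (fun p => m * I p) (ε * m) (by positivity) h2
  have e2 := hsum I L ε hε h3
  have e3 : ∑ p ∈ Finset.range (n + 1), (-1) ^ p * (p : ℝ) * (m * I p) =
      m * ∑ p ∈ Finset.range (n + 1), (-1) ^ p * (p : ℝ) * I p := by
    rw [Finset.mul_sum]
    exact Finset.sum_congr rfl fun p _ => by ring
  have e4 : |∑ p ∈ Finset.range (n + 1), (-1) ^ p * (p : ℝ) * J p| ≤ 4 * ε * m := by
    have : ∑ p ∈ Finset.range (n + 1), (-1) ^ p * (p : ℝ) * J p = -2 * t := by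
      rw [ht]
      ring
    rw [this, abs_mul]
    norm_num
    linarith
  have e5 : m * |∑ p ∈ Finset.range (n + 1), (-1) ^ p * (p : ℝ) * I p| ≤
      m * ((4 + (n + 1) ^ 2) * ε) := by
    rw [← abs_of_pos hm, ← abs_mul, abs_of_pos hm, ← e3]
    have e6 : ∑ p ∈ Finset.range (n + 1), (-1) ^ p * (p : ℝ) * (m * I p) =
        ∑ p ∈ Finset.range (n + 1), (-1) ^ p * (p : ℝ) * J p -
        (∑ p ∈ Finset.range (n + 1), (-1) ^ p * (p : ℝ) * J p -
          ∑ p ∈ Finset.range (n + 1), (-1) ^ p * (p : ℝ) * (m * I p)) := by ring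
    rw [e6]
    refine (abs_sub _ _).trans ?_
    refine (add_le_add e4 e1).trans (le_of_eq ?_)
    ring
  have e7 := le_of_mul_le_mul_left e5 hm
  have e8 : ∑ p ∈ Finset.range (n + 1), (-1) ^ p * (p : ℝ) * L p =
      ∑ p ∈ Finset.range (n + 1), (-1) ^ p * (p : ℝ) * I p -
      (∑ p ∈ Finset.range (n + 1), (-1) ^ p * (p : ℝ) * I p -
        ∑ p ∈ Finset.range (n + 1), (-1) ^ p * (p : ℝ) * L p) := by ring
  rw [e8]
  refine (abs_sub _ _).trans ?_
  refine (add_le_add e7 e2).trans (le_of_eq ?_)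
  ring

/-- Families of test functions. -/
theorem lim_fam (hLIM : LimStmt) {P : Type} [Fintype P] [Nonempty P] (μ : P → Measure ℝ) (K : ℝ)
    (hf : ∀ p, IsFiniteMeasure (μ p)) (hK : 1 ≤ K) (hs : ∀ p, μ p (Set.Icc 0 K)ᶜ = 0)
    (Φ : P → ℝ → ℝ) (hΦ : ∀ p, Continuous (Φ p)) (ε : ℝ) (hε : 0 < ε) :
    ∃ (k0 : ℕ) (η : ℝ), 0 < η ∧ ∀ (p : P) (ι : Type) [Fintype ι] [DecidableEq ι]
      (A : Matrix ι ι ℝ) (N : ℕ), (Fintype.card ι : ℝ) ≤ K * N → A.PosSemidef → Bd A K →
      (∀ k ≤ k0, |(A ^ k).trace - N * ∫ x, x ^ k ∂(μ p)| ≤ η * N) →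
      |(A.charpoly.roots.map (Φ p)).sum - N * ∫ x, Φ p x ∂(μ p)| ≤ ε * N := by
  have h := fun p => hLIM (μ p) K (hf p) hK (hs p) (Φ p) (hΦ p) ε hε
  choose k0 η hη h2 using h
  refine ⟨Finset.univ.sup k0, Finset.univ.inf' Finset.univ_nonempty η, ?_, ?_⟩
  · rw [Finset.lt_inf'_iff]
    exact fun p _ => hη p
  · intro p ι _ _ A N h3 h4 h5 h6
    apply h2 p ι A N h3 h4 h5
    intro k hk
    have h7 := h6 k (hk.trans (Finset.le_sup (Finset.mem_univ p)))
    refine h7.trans (mul_le_mul_of_nonneg_right ?_ (by positivity))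
    exact Finset.inf'_le _ (Finset.mem_univ p)

theorem log_cont (δ : ℝ) (hδ : 0 < δ) : Continuous fun x : ℝ => Real.log (max x δ) := by
  apply Continuous.log
  · fun_prop
  · intro x
    have : 0 < max x δ := lt_max_of_lt_right hδ
    exact this.ne'

/-- Finite models with all the properties we need. -/
theorem models (hSOF : SofStmt) (hMOM : MomStmt) {G : Type} [Group G] (hS : Sofic G)
    (C : Res G) (n kmax : ℕ) (R R1 : Finset G) (η e1 : ℝ) (hη : 0 < η) (he1 : 0 < e1) :
    ∃ (m : ℕ) (a : Fin m → G → Fin m), 0 < m ∧ (∀ g, Function.Bijective fun v => a v g) ∧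
      (nb a R : ℝ) ≤ e1 * m ∧ (nb a R1 : ℝ) ≤ e1 * m ∧
      ∀ p ≤ n, ∀ k ≤ kmax, |(Lpp (fun v : Fin m × C.X => C.dim v.2) (cst (dV C a R)) p ^ k).trace -
        m * (tr1 (C.lapp p ^ k) : ℝ)| ≤ η * m := by
  classical
  have h := fun p k => hMOM G C R p k
  choose R' M h2 using h
  set Rt : Finset G := R ∪ R1 ∪ (Finset.range (n + 1)).biUnion fun p =>
    (Finset.range (kmax + 1)).biUnion fun k => R' p k with hRt
  set Mt : ℕ := ∑ p ∈ Finset.range (n + 1), ∑ k ∈ Finset.range (kmax + 1), M p k with hMt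
  obtain ⟨m, a, hm, hb, hnb⟩ := hSOF G hS Rt (min e1 (η / (Mt + 1))) (by positivity)
  have hR : R ⊆ Rt := fun x hx => by
    rw [hRt]
    simp [hx]
  have hR1 : R1 ⊆ Rt := fun x hx => by
    rw [hRt]
    simp [hx]
  have hmin : ∀ R2 : Finset G, R2 ⊆ Rt → (nb a R2 : ℝ) ≤ min e1 (η / (Mt + 1)) * m := by
    intro R2 h3
    refine le_trans ?_ hnb
    exact_mod_cast nb_mono a h3
  have hm' : (0 : ℝ) ≤ m := by positivity
  refine ⟨m, a, hm, hb, (hmin R hR).trans (mul_le_mul_of_nonneg_right (min_le_left _ _) hm'),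
    (hmin R1 hR1).trans (mul_le_mul_of_nonneg_right (min_le_left _ _) hm'), ?_⟩
  intro p hp k hk
  have h3 := h2 p k (Fin m) a hb
  rw [Fintype.card_fin] at h3
  refine h3.trans ?_
  have hR2 : R' p k ⊆ Rt := by
    intro x hx
    rw [hRt]
    apply Finset.mem_union_right
    rw [Finset.mem_biUnion]
    refine ⟨p, Finset.mem_range.mpr (by omega), ?_⟩
    rw [Finset.mem_biUnion]
    exact ⟨k, Finset.mem_range.mpr (by omega), hx⟩
  have h4 := hmin _ hR2
  have h5 : M p k ≤ Mt := by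
    have e1 : M p k ≤ ∑ k ∈ Finset.range (kmax + 1), M p k :=
      Finset.single_le_sum (f := fun k => M p k) (fun _ _ => Nat.zero_le _)
        (Finset.mem_range.mpr (by omega))
    have e2 : ∑ k ∈ Finset.range (kmax + 1), M p k ≤ Mt :=
      Finset.single_le_sum (f := fun p => ∑ k ∈ Finset.range (kmax + 1), M p k)
        (fun _ _ => Nat.zero_le _) (Finset.mem_range.mpr (by omega))
    exact e1.trans e2
  have h6 : (M p k : ℝ) ≤ Mt := by exact_mod_cast h5
  calc (M p k : ℝ) * nb a (R' p k) ≤ Mt * (min e1 (η / (Mt + 1)) * m) :=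
        mul_le_mul h6 h4 (by positivity) (by positivity)
    _ ≤ Mt * ((η / (Mt + 1)) * m) := by
        apply mul_le_mul_of_nonneg_left _ (by positivity)
        exact mul_le_mul_of_nonneg_right (min_le_right _ _) hm'
    _ = η * m * (Mt / (Mt + 1)) := by
        field_simp
    _ ≤ η * m * 1 := by
        apply mul_le_mul_of_nonneg_left _ (by positivity)
        rw [div_le_one (by positivity)]
        linarith
    _ = η * m := by ring

theorem real_r (M n m nbR : ℕ) (r0 ρ : ℝ) (z : Fin (n + 1) → ℕ) (hr0 : 0 < r0)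
    (hρ : ρ = min r0 1 / (8 * (n + 1))) (hnb : (nbR : ℝ) ≤ min r0 1 / (4 * (M + 1)) * m)
    (hz : ∀ p, (z p : ℝ) ≤ 2 * ρ * m) :
    ((M * nbR + ∑ p, z p : ℕ) : ℝ) ≤ min r0 1 / 2 * m := by
  have h1 : (M : ℝ) * nbR ≤ min r0 1 / 4 * m := by
    calc (M : ℝ) * nbR ≤ M * (min r0 1 / (4 * (M + 1)) * m) :=
          mul_le_mul_of_nonneg_left hnb (by positivity)
      _ = min r0 1 / 4 * m * (M / (M + 1)) := by field_simp
      _ ≤ min r0 1 / 4 * m * 1 := by
          apply mul_le_mul_of_nonneg_left _ (by positivity)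
          rw [div_le_one (by positivity)]
          linarith
      _ = _ := by ring
  have h2 : ∑ p, (z p : ℝ) ≤ min r0 1 / 4 * m := by
    calc ∑ p, (z p : ℝ) ≤ ∑ _p : Fin (n + 1), 2 * ρ * m := Finset.sum_le_sum fun p _ => hz p
      _ = (n + 1) * (2 * ρ * m) := by
          rw [Finset.sum_const, Finset.card_univ, Fintype.card_fin, nsmul_eq_mul]
          push_cast
          ring
      _ = _ := by
          rw [hρ]
          field_simp
          ring
  push_cast
  linarith

end TopX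

open TopX in
/-- TOP. -/
theorem top (hSOF : SofStmt) (hIMG : ImgStmt) (hFIN : FinStmt) (hFLT : FltStmt) (hPAR : ParStmt)
    (hMOM : MomStmt) (hLIM : LimStmt) (hLOG : LogStmt) : TopStmt := by
  intro G _ hS N hN hNi hNa C n μ hn hμ h0
  have hlog : ∀ p, IntegrableOn Real.log (Set.Ioi 0) (μ p) := fun p =>
    hLOG G hS C p (μ p) (hμ p) (h0 p)
  refine ⟨hlog, ?_⟩
  set L : ℕ → ℝ := fun p => ∫ x in Set.Ioi 0, Real.log x ∂(μ p) with hL
  have hfinm : ∀ p, IsFiniteMeasure (μ p) := fun p => (hμ p).fin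
  have key : ∀ ε : ℝ, 0 < ε → |∑ p ∈ Finset.range (n + 1), (-1) ^ p * (p : ℝ) * L p| ≤
      (4 + 2 * (n + 1) ^ 2) * ε := by
    intro ε hε
    classical
    have hKex := fun p => (hμ p).supp
    choose Ks hKs using hKex
    have ht := fun p => tends_log (μ p) (Ks p) (hKs p) (h0 p) (hlog p) ε hε
    choose δs hδs hδs1 hδs2 using ht
    have hne : (Finset.range (n + 1)).Nonempty := ⟨0, by simp⟩
    set δ1 : ℝ := (Finset.range (n + 1)).inf' hne δs with hδ1
    have hδ1pos : 0 < δ1 := by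
      rw [hδ1, Finset.lt_inf'_iff]
      exact fun p _ => hδs p
    have hδ1lt : δ1 < 1 := lt_of_le_of_lt (Finset.inf'_le δs (show 0 ∈ Finset.range (n + 1) by
      simp)) (hδs1 0)
    obtain ⟨S, hS2⟩ := hFIN G C n hn
    have hκ : 0 < ε / (n + 1) ^ 2 := by positivity
    obtain ⟨Q, R1, e1, he1, himg⟩ := hIMG G N hN hNi hNa S n (ε / (n + 1) ^ 2) hκ
    obtain ⟨K, R, hK1, M, hfin⟩ := hS2 Q
    set cX : ℝ := (Fintype.card C.X : ℝ) with hcX
    have hcX0 : 0 ≤ cX := by positivity
    set K2 : ℝ := K + cX + ε / (n + 1) ^ 2 with hK2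
    obtain ⟨s, r0, hs, hr0, hflt⟩ := hFLT n K2 ε δ1 (by linarith) hε hδ1pos hδ1lt
    set K3 : ℝ := 1 + 2 * K ^ 2 + cX + ∑ p ∈ Finset.range (n + 1), |Ks p| with hK3
    have hsumK : 0 ≤ ∑ p ∈ Finset.range (n + 1), |Ks p| :=
      Finset.sum_nonneg fun _ _ => abs_nonneg _
    have hK3s : ∀ p ≤ n, Ks p ≤ K3 := by
      intro p hp
      have h1 : |Ks p| ≤ ∑ p ∈ Finset.range (n + 1), |Ks p| :=
        Finset.single_le_sum (f := fun p => |Ks p|) (fun _ _ => abs_nonneg _)
          (Finset.mem_range.mpr (by omega))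
      have h2 := le_abs_self (Ks p)
      nlinarith [sq_nonneg K]
    have hsupp : ∀ p ≤ n, μ p (Set.Icc 0 K3)ᶜ = 0 := by
      intro p hp
      refine measure_mono_null ?_ (hKs p)
      exact Set.compl_subset_compl.mpr (Set.Icc_subset_Icc le_rfl (hK3s p hp))
    set ρ : ℝ := min r0 1 / (8 * (n + 1)) with hρ
    have hρ0 : 0 < ρ := by positivity
    have hh := fun p => hat_small (μ p) (Ks p) (hKs p) (h0 p) ρ hρ0
    choose ηs hηs hηs2 using hh
    let Φ : Fin (n + 1) × Option {x // x ∈ s} → ℝ → ℝ := fun q =>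
      match q.2 with
      | none => hat (ηs q.1.1)
      | some δ => fun x => Real.log (max x δ.1)
    obtain ⟨kmax, η, hη, hlim⟩ := lim_fam hLIM
      (fun q : Fin (n + 1) × Option {x // x ∈ s} => μ q.1.1) K3 (fun q => hfinm q.1.1)
      (by nlinarith [sq_nonneg K]) (fun q => hsupp q.1.1 (Nat.lt_succ_iff.mp q.1.2)) Φ (by
        rintro ⟨p, δ⟩
        cases δ with
        | none => exact hat_cont _
        | some δ => exact log_cont δ.1 (hs δ.1 δ.2).1) (min ρ ε) (by positivity)
    obtain ⟨m, a, hm, hb, hnR, hnR1, hmom⟩ := models hSOF hMOM hS C n kmax R R1 η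
      (min e1 (min r0 1 / (4 * (M + 1)))) hη (by positivity)
    have hm' : (0 : ℝ) < m := by exact_mod_cast hm
    obtain ⟨c, hcQ, hcard⟩ := himg (Fin m) a hb (by
      rw [Fintype.card_fin]
      exact hnR1.trans (mul_le_mul_of_nonneg_right (min_le_left _ _) hm'.le))
    let _ : Fintype (Im a S c n) := (im_finite a S c n).fintype
    obtain ⟨e, f, h, θ, hdat, hHS⟩ := hfin (Fin m) a c hb hcQ
    rw [Fintype.card_fin] at hcard
    set dc : Fin m × C.X → ℕ := fun v => C.dim v.2 with hdc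
    have hcc : (Fintype.card (Fin m × C.X) : ℝ) = m * cX := by
      rw [Fintype.card_prod, Fintype.card_fin]
      push_cast
      rfl
    -- the spectral estimates
    have hspec : ∀ (p : Fin (n + 1)) (o : Option {x // x ∈ s}),
        |((Lpp dc (cst (dV C a R)) p.1).charpoly.roots.map (Φ (p, o))).sum -
          m * ∫ x, Φ (p, o) x ∂(μ p.1)| ≤ min ρ ε * m := by
      intro p o
      have hp : p.1 ≤ n := Nat.lt_succ_iff.mp p.2
      apply hlim (p, o) {x // dc x = p.1} (Lpp dc (cst (dV C a R)) p.1) m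
      · have h1 : (Fintype.card {x // dc x = p.1} : ℝ) ≤ Fintype.card (Fin m × C.X) := by
          exact_mod_cast Fintype.card_subtype_le _
        rw [hcc] at h1
        have h2 : cX ≤ K3 := by nlinarith [sq_nonneg K]
        nlinarith
      · exact lpp_psd _ _ _
      · exact (lpp_bd dc (cst (dV C a R)) p.1 K (by linarith) hdat.bd).mono (by positivity)
          (by linarith)
      · intro k hk
        rw [(hμ p.1).mom k]
        exact hmom p.1 hp k hk
    -- zero eigenvalues
    set z : Fin (n + 1) → ℕ := fun p => Fintype.card {x // dc x = p.1} -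
      (Lpp dc (cst (dV C a R)) p.1).rank with hz
    have hz1 : ∀ p, Fintype.card {x // dc x = p.1} ≤
        (blk dc (Lp (cst (dV C a R))) p.1).rank + z p := by
      intro p
      have : blk dc (Lp (cst (dV C a R))) p.1 = Lpp dc (cst (dV C a R)) p.1 := rfl
      rw [this]
      simp only [hz]
      omega
    have hz2 : ∀ p, (z p : ℝ) ≤ 2 * ρ * m := by
      intro p
      have h1 := card_le_hat (lpp_psd dc (cst (dV C a R)) p.1) (ηs p.1)
      have h2 := (abs_le.mp (hspec p none)).2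
      have h3 : Φ (p, none) = hat (ηs p.1) := rfl
      rw [h3] at h2
      have h4 := hηs2 p.1
      have h5 : min ρ ε * (m : ℝ) ≤ ρ * m := mul_le_mul_of_nonneg_right (min_le_left _ _) hm'.le
      have h6 : (m : ℝ) * ∫ x, hat (ηs p.1) x ∂(μ p.1) ≤ m * ρ :=
        mul_le_mul_of_nonneg_left h4 hm'.le
      simp only [hz]
      rcases le_total (Fintype.card {x // dc x = p.1}) ((Lpp dc (cst (dV C a R)) p.1).rank) with
        h7 | h7
      · rw [Nat.sub_eq_zero_of_le h7]
        push_cast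
        positivity
      · rw [Nat.cast_sub h7]
        linarith
    have hrk := card_le_blocks n dc (Lp (cst (dV C a R))) (fun v => hn v.2)
      (fun x y h => lp_deg hdat.gd x y h) z hz1
    set r : ℕ := M * nb a R + ∑ p, z p with hr
    have hr1 : (r : ℝ) ≤ min r0 1 / 2 * m := real_r M n m (nb a R) r0 ρ z hr0 hρ
      (hnR.trans (mul_le_mul_of_nonneg_right (min_le_right _ _) hm'.le)) hz2
    have hrm : r < m := by
      have h1 : min r0 1 ≤ 1 := min_le_right _ _
      have h2 : (r : ℝ) < m := by nlinarith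
      exact_mod_cast h2
    have hr0' : (r : ℝ) ≤ r0 * m := by
      have h1 : min r0 1 ≤ r0 := min_le_left _ _
      nlinarith
    have hrk' : Fintype.card (Fin m × C.X) ≤ (Lp (cst (dV C a R))).rank + r := by omega
    -- parity
    have hdd : cst (dV C a R) * cst (dV C a R) = 0 := by
      rw [← Flt.cst_mul, hdat.dd0]
      exact cst_zero
    have hpar := hPAR (Fin m × C.X) dc (cst (dV C a R)) r hdat.gd hdd hrk'
    have hEO : Fintype.card (Ev dc) = Fintype.card (Od dc) := by
      have h1 : Fintype.card (Ev dc) = m * Fintype.card {x // C.dim x % 2 = 0} := by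
        have := card_prod_sub (V := Fin m) (fun x : C.X => C.dim x % 2 = 0)
        rw [Fintype.card_fin] at this
        exact this
      have h2 : Fintype.card (Od dc) = m * Fintype.card {x // C.dim x % 2 = 1} := by
        have := card_prod_sub (V := Fin m) (fun x : C.X => C.dim x % 2 = 1)
        rw [Fintype.card_fin] at this
        exact this
      rw [h1, h2] at hpar ⊢
      exact mul_eq_of_close m _ _ r hrm hpar.1 hpar.2
    obtain ⟨δ, hδ, htau⟩ := hflt (Fin m × C.X) (Im a S c n) m r dc (fun l => ldg l.1)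
      (dV C a R) e f h θ hr0' (by
        rw [hcc]
        have : cX ≤ K2 := by linarith
        nlinarith) (by
        have h1 : (Fintype.card (Im a S c n) : ℝ) = ((Im a S c n).ncard : ℝ) := by
          rw [← Nat.card_eq_fintype_card]
          rfl
        rw [h1]
        refine hcard.trans (mul_le_mul_of_nonneg_right ?_ hm'.le)
        linarith) (dat_mono hdat (by linarith) (by linarith) (by omega)) hrk' hEO
    have hHS2 : HS e ≤ ε * m := by
      refine hHS.trans ?_
      calc ((n : ℝ) + 1) ^ 2 * ((Im a S c n).ncard : ℝ) ≤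
            ((n : ℝ) + 1) ^ 2 * (ε / (n + 1) ^ 2 * m) :=
            mul_le_mul_of_nonneg_left hcard (by positivity)
        _ = ε * m := by field_simp
    apply final_ineq n ε m hm' L (fun p => ∫ x, Real.log (max x δ) ∂(μ p))
      (fun p => Lcut (Lpp dc (cst (dV C a R)) p) δ) (tau dc (cst (dV C a R)) n δ) hε.le rfl
    · linarith
    · intro p hp
      have hp' := Finset.mem_range.mp hp
      have h1 := hspec ⟨p, hp'⟩ (some ⟨δ, hδ⟩)
      refine h1.trans (mul_le_mul_of_nonneg_right (min_le_right _ _) hm'.le)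
    · intro p hp
      apply hδs2 p δ (hs δ hδ).1
      exact (hs δ hδ).2.trans (Finset.inf'_le δs hp)
  by_contra hne
  have hpos := abs_pos.mpr hne
  set T := |∑ p ∈ Finset.range (n + 1), (-1) ^ p * (p : ℝ) * L p| with hT
  have h1 := key (T / (2 * (4 + 2 * (n + 1) ^ 2))) (by positivity)
  have h2 : (4 + 2 * ((n : ℝ) + 1) ^ 2) * (T / (2 * (4 + 2 * (n + 1) ^ 2))) = T / 2 := by
    field_simp
  rw [h2] at h1
  linarith

end Pool.Agent.LT
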