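import Pool.Agent.Helper61_LT.Stmts
import Pool.Agent.Helper61_LT.Tools
import Pool.Agent.Helper62_LT.FLT

/-!
# LT module TOP, analytic part
-/

set_option autoImplicit false
set_option linter.unusedSectionVars false

namespace Pool.Agent.LT

open Matrix MeasureTheory Filter Topology

namespace TopX

/-- A measure with support in `[0, K]` without mass at zero is carried by `(0, ∞)`. -/
theorem ae_pos (μ : Measure ℝ) (K : ℝ) (hK : μ (Set.Icc 0 K)ᶜ = 0) (h0 : μ {0} = 0) :
    ∀ᵐ x ∂μ, x ∈ Set.Ioi (0 : ℝ) := by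
  rw [ae_iff]
  have h : {a | ¬a ∈ Set.Ioi (0 : ℝ)} ⊆ (Set.Icc 0 K)ᶜ ∪ {0} := by
    intro x hx
    have hx : x ≤ 0 := not_lt.mp hx
    rcases hx.lt_or_eq with h1 | h1
    · left
      intro h2
      exact absurd h2.1 (not_le.mpr h1)
    · right
      exact h1
  refine measure_mono_null h ?_
  rw [measure_union_null_iff]
  exact ⟨hK, h0⟩

theorem ae_le (μ : Measure ℝ) (K : ℝ) (hK : μ (Set.Icc 0 K)ᶜ = 0) :
    ∀ᵐ x ∂μ, x ∈ Set.Icc (0 : ℝ) K := by
  rw [ae_iff]
  exact hK

/-- The cut off logarithm converges. -/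
theorem tends_log (μ : Measure ℝ) (K : ℝ) (hK : μ (Set.Icc 0 K)ᶜ = 0)
    (h0 : μ {0} = 0) (hi : IntegrableOn Real.log (Set.Ioi 0) μ) (ε : ℝ) (hε : 0 < ε) :
    ∃ δ1 : ℝ, 0 < δ1 ∧ δ1 < 1 ∧ ∀ δ, 0 < δ → δ ≤ δ1 →
      |∫ x, Real.log (max x δ) ∂μ - ∫ x in Set.Ioi 0, Real.log x ∂μ| ≤ ε := by
  have hpos := ae_pos μ K hK h0
  have hres : μ.restrict (Set.Ioi 0) = μ := Measure.restrict_eq_self_of_ae_mem hpos
  have hi' : Integrable Real.log μ := by
    unfold IntegrableOn at hi
    rwa [hres] at hi
  rw [hres]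
  have ht : Tendsto (fun δ : ℝ => ∫ x, Real.log (max x δ) ∂μ) (𝓝[>] 0)
      (𝓝 (∫ x, Real.log x ∂μ)) := by
    apply tendsto_integral_filter_of_dominated_convergence (fun x => ‖Real.log x‖)
    · refine Filter.Eventually.of_forall fun δ => ?_
      exact (Real.measurable_log.comp (measurable_id.max measurable_const)).aestronglyMeasurable
    · filter_upwards [Ioo_mem_nhdsGT (show (0 : ℝ) < 1 by norm_num)] with δ hδ
      filter_upwards [hpos] with x hx
      have hx' : 0 < x := hx
      rw [Real.norm_eq_abs, Real.norm_eq_abs]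
      rcases le_total x δ with h | h
      · rw [max_eq_right h]
        have h1 : Real.log δ ≤ 0 := Real.log_nonpos hδ.1.le hδ.2.le
        have h2 : Real.log x ≤ Real.log δ := Real.log_le_log hx' h
        rw [abs_of_nonpos h1, abs_of_nonpos (h2.trans h1)]
        linarith
      · rw [max_eq_left h]
    · exact hi'.norm
    · filter_upwards [hpos] with x hx
      have hx' : 0 < x := hx
      apply tendsto_const_nhds.congr'
      filter_upwards [Ioo_mem_nhdsGT hx'] with δ hδ
      rw [max_eq_left hδ.2.le]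
  have h1 := (Metric.tendsto_nhdsWithin_nhds.mp ht) ε hε
  obtain ⟨η, hη, hη2⟩ := h1
  refine ⟨min (η / 2) (1 / 2), by positivity, lt_of_le_of_lt (min_le_right _ _) (by norm_num), ?_⟩
  intro δ hδ hδ1
  have h2 := hη2 (x := δ) hδ (by
    rw [Real.dist_eq, sub_zero, abs_of_pos hδ]
    have := hδ1.trans (min_le_left _ _)
    linarith)
  rw [Real.dist_eq] at h2
  exact h2.le

/-- The hat function. -/
noncomputable def hat (η : ℝ) (x : ℝ) : ℝ := max 0 (1 - |x| / η)

theorem hat_cont (η : ℝ) : Continuous (hat η) := by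
  unfold hat
  fun_prop

theorem hat_nonneg (η x : ℝ) : 0 ≤ hat η x := le_max_left _ _

theorem hat_zero (η : ℝ) : hat η 0 = 1 := by simp [hat]

theorem hat_small (μ : Measure ℝ) [IsFiniteMeasure μ] (K : ℝ) (hK : μ (Set.Icc 0 K)ᶜ = 0)
    (h0 : μ {0} = 0) (ρ : ℝ) (hρ : 0 < ρ) : ∃ η : ℝ, 0 < η ∧ ∫ x, hat η x ∂μ ≤ ρ := by
  have hpos := ae_pos μ K hK h0
  have ht : Tendsto (fun η : ℝ => ∫ x, hat η x ∂μ) (𝓝[>] 0) (𝓝 (∫ _x, (0 : ℝ) ∂μ)) := by
    apply tendsto_integral_filter_of_dominated_convergence (fun _ => (1 : ℝ))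
    · exact Filter.Eventually.of_forall fun η => (hat_cont η).aestronglyMeasurable
    · filter_upwards [self_mem_nhdsWithin] with η hη
      refine Filter.Eventually.of_forall fun x => ?_
      have hη' : 0 < η := hη
      rw [Real.norm_eq_abs, abs_of_nonneg (hat_nonneg _ _)]
      unfold hat
      apply max_le (by norm_num)
      have : 0 ≤ |x| / η := by positivity
      linarith
    · exact integrable_const _
    · filter_upwards [hpos] with x hx
      have hx' : 0 < x := hx
      apply tendsto_const_nhds.congr'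
      filter_upwards [Ioo_mem_nhdsGT hx'] with η hη
      symm
      unfold hat
      apply max_eq_left
      have : 1 ≤ |x| / η := by
        rw [le_div_iff₀ hη.1, abs_of_pos hx', one_mul]
        exact hη.2.le
      linarith
  rw [integral_zero] at ht
  have h1 := (Metric.tendsto_nhdsWithin_nhds.mp ht) ρ hρ
  obtain ⟨η, hη, hη2⟩ := h1
  refine ⟨η / 2, by positivity, ?_⟩
  have h2 := hη2 (x := η / 2) (by
    show 0 < η / 2
    positivity) (by
    rw [Real.dist_eq, sub_zero, abs_of_pos (by positivity)]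
    linarith)
  rw [Real.dist_eq, sub_zero] at h2
  exact (le_abs_self _).trans h2.le

variable {ι : Type} [Fintype ι] [DecidableEq ι]

/-- Counting the zero eigenvalues. -/
theorem card_le_hat {A : Matrix ι ι ℝ} (hA : A.PosSemidef) (η : ℝ) :
    (Fintype.card ι : ℝ) ≤ A.rank + (A.charpoly.roots.map (hat η)).sum := by
  have h1 := Flt.card_zero hA.1
  have h2 : ((A.charpoly.roots.filter fun x => x = 0).card : ℝ) ≤
      (A.charpoly.roots.map (hat η)).sum := by
    have h3 : A.charpoly.roots = A.charpoly.roots.filter (fun x => x = 0) +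
        A.charpoly.roots.filter (fun x => ¬ x = 0) := (Multiset.filter_add_not _ _).symm
    have h4 : (A.charpoly.roots.map (hat η)).sum =
        ((A.charpoly.roots.filter fun x => x = 0).map (hat η)).sum +
        ((A.charpoly.roots.filter fun x => ¬ x = 0).map (hat η)).sum := by
      conv_lhs => rw [h3]
      rw [Multiset.map_add, Multiset.sum_add]
    rw [h4]
    have h5 : ((A.charpoly.roots.filter fun x => x = 0).map (hat η)).sum =
        ((A.charpoly.roots.filter fun x => x = 0).card : ℝ) := by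
      have : (A.charpoly.roots.filter fun x => x = 0).map (hat η) =
          (A.charpoly.roots.filter fun x => x = 0).map (fun _ => (1 : ℝ)) := by
        apply Multiset.map_congr rfl
        intro x hx
        rw [(Multiset.mem_filter.mp hx).2, hat_zero]
      rw [this]
      simp
    have h6 : 0 ≤ ((A.charpoly.roots.filter fun x => ¬ x = 0).map (hat η)).sum := by
      apply Multiset.sum_nonneg
      intro x hx
      rw [Multiset.mem_map] at hx
      obtain ⟨y, -, rfl⟩ := hx
      exact hat_nonneg _ _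
    linarith
  have h7 : (Fintype.card ι : ℝ) = ((A.charpoly.roots.filter fun x => x = 0).card : ℝ) + A.rank := by
    rw [← h1]
    push_cast
    ring
  linarith

/-- Diagonal block. -/
def blk (dc : ι → ℕ) (A : Matrix ι ι ℝ) (p : ℕ) : Matrix {x // dc x = p} {x // dc x = p} ℝ :=
  A.submatrix Subtype.val Subtype.val

/-- The kernel of a block diagonal matrix. -/
theorem card_le_blocks (n : ℕ) (dc : ι → ℕ) (A : Matrix ι ι ℝ) (hn : ∀ x, dc x ≤ n)
    (hA : ∀ x y, A x y ≠ 0 → dc x = dc y) (r : Fin (n + 1) → ℕ)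
    (h : ∀ p : Fin (n + 1), Fintype.card {x // dc x = p.1} ≤ (blk dc A p.1).rank + r p) :
    Fintype.card ι ≤ A.rank + ∑ p, r p := by
  classical
  have hk : ∀ {κ : Type} [Fintype κ] [DecidableEq κ] (B : Matrix κ κ ℝ),
      Fintype.card κ = B.rank + Module.finrank ℝ (LinearMap.ker B.mulVecLin) := by
    intro κ _ _ B
    have := LinearMap.finrank_range_add_finrank_ker B.mulVecLin
    rw [Module.finrank_fintype_fun_eq_card] at this
    exact this.symm
  rw [hk A]
  have h1 : Module.finrank ℝ (LinearMap.ker A.mulVecLin) ≤ ∑ p : Fin (n + 1),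
      Module.finrank ℝ (LinearMap.ker (blk dc A p.1).mulVecLin) := by
    rw [← Module.finrank_pi_fintype]
    let F : LinearMap.ker A.mulVecLin →ₗ[ℝ] ((p : Fin (n + 1)) →
        LinearMap.ker (blk dc A p.1).mulVecLin) :=
      LinearMap.pi fun p => LinearMap.codRestrict _
        ((LinearMap.funLeft ℝ ℝ (Subtype.val : {x // dc x = p.1} → ι)).comp
          (LinearMap.ker A.mulVecLin).subtype) (by
        intro z
        rw [LinearMap.mem_ker]
        ext i
        have hz := z.2
        rw [LinearMap.mem_ker] at hz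
        have hzi := congrFun hz i.1
        simp only [blk, Matrix.mulVecLin_apply, Matrix.mulVec, dotProduct, Pi.zero_apply,
          Matrix.submatrix_apply, LinearMap.coe_comp, Function.comp_apply,
          LinearMap.funLeft_apply, Submodule.coe_subtype] at hzi ⊢
        rw [← hzi]
        apply Finset.sum_of_injOn (Subtype.val) Subtype.val_injective.injOn (fun _ _ => by simp)
        · intro j _ hj
          have : A i.1 j = 0 := by
            by_contra hne
            apply hj
            have := hA _ _ hne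
            rw [i.2] at this
            exact ⟨⟨j, this.symm⟩, by simp, rfl⟩
          rw [this, zero_mul]
        · intro j _
          rfl)
    apply LinearMap.finrank_le_finrank_of_injective (f := F)
    rw [← LinearMap.ker_eq_bot, LinearMap.ker_eq_bot']
    intro z hz
    ext i
    have := congrFun hz ⟨dc i, Nat.lt_succ_of_le (hn i)⟩
    have h2 := congrArg Subtype.val this
    have h3 := congrFun h2 ⟨i, rfl⟩
    exact h3
  refine Nat.add_le_add_left (h1.trans (Finset.sum_le_sum fun p _ => ?_)) _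
  have h2 := h p
  rw [hk (blk dc A p.1)] at h2
  omega

/-- The Laplacian has degree zero. -/
theorem lp_deg {dc : ι → ℕ} {d : Matrix ι ι ℝ} (hd : Hg dc dc d (-1)) (x y : ι)
    (h : Lp d x y ≠ 0) : dc x = dc y := by
  unfold Lp at h
  rw [Matrix.add_apply] at h
  by_contra hne
  apply h
  have h1 : (d * dᵀ) x y = 0 := by
    rw [Matrix.mul_apply]
    apply Finset.sum_eq_zero
    intro z _
    by_contra h2
    have h3 : d x z ≠ 0 := left_ne_zero_of_mul h2
    have h4 : d y z ≠ 0 := right_ne_zero_of_mul h2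
    have h5 := hd _ _ h3
    have h6 := hd _ _ h4
    omega
  have h2 : (dᵀ * d) x y = 0 := by
    rw [Matrix.mul_apply]
    apply Finset.sum_eq_zero
    intro z _
    by_contra h2
    have h3 : d z x ≠ 0 := left_ne_zero_of_mul h2
    have h4 : d z y ≠ 0 := right_ne_zero_of_mul h2
    have h5 := hd _ _ h3
    have h6 := hd _ _ h4
    omega
  rw [h1, h2, add_zero]

theorem lp_psd (d : Matrix ι ι ℝ) : (Lp d).PosSemidef := (Flt.psd_mt _).add (Flt.psd_tm _)

theorem lpp_psd (dc : ι → ℕ) (d : Matrix ι ι ℝ) (p : ℕ) : (Lpp dc d p).PosSemidef :=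
  (lp_psd d).submatrix _

theorem lpp_bd (dc : ι → ℕ) (d : Matrix ι ι ℝ) (p : ℕ) (K : ℝ) (hK : 0 ≤ K) (h : Bd d K) :
    Bd (Lpp dc d p) (2 * K ^ 2) := by
  have h1 : Bd (Lp d) (K * K + K * K) :=
    (h.mul (h.transpose hK)).add ((h.transpose hK).mul h) (by positivity) (by positivity)
  have h2 := h1.submatrix (f := (Subtype.val : {x // dc x = p} → ι))
    (g := (Subtype.val : {x // dc x = p} → ι)) Subtype.val_injective Subtype.val_injective
  have h3 : 2 * K ^ 2 = K * K + K * K := by ring
  rw [h3]
  exact h2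

end TopX

end Pool.Agent.LT
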